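import Mathlib

set_option autoImplicit false

open Filter

namespace Pool.Agent.Helper38.UBL

theorem ev_pow (k : ℕ) (δ : ℝ) (hδ : 0 < δ) :
    ∀ᶠ n : ℕ in atTop, (Real.log (n : ℝ)) ^ k ≤ δ * n := by
  have h := (Real.isLittleO_pow_log_id_atTop (n := k)).def hδ
  have h2 := tendsto_natCast_atTop_atTop (R := ℝ) |>.eventually h
  filter_upwards [h2] with n hn
  simp only [id_eq, Real.norm_eq_abs, abs_pow] at hn
  rw [Nat.abs_cast] at hn
  refine le_trans ?_ hn
  exact (le_abs_self _).trans (le_of_eq (abs_pow _ _))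

theorem ev_log (K : ℝ) : ∀ᶠ n : ℕ in atTop, K ≤ Real.log (n : ℝ) := by
  have h := (Real.tendsto_log_atTop.comp (tendsto_natCast_atTop_atTop (R := ℝ)))
  exact h.eventually_ge_atTop K

theorem ev_exp (δ : ℝ) (hδ : 0 < δ) :
    ∀ᶠ n : ℕ in atTop, (Real.log (n : ℝ)) ^ 2 * Real.exp (-(Real.log n / 14)) ≤ δ := by
  have h := Real.tendsto_pow_mul_exp_neg_atTop_nhds_zero 2
  have h1 : Tendsto (fun n : ℕ => Real.log (n : ℝ) / 14) atTop atTop := by
    have h0 := (Real.tendsto_log_atTop.comp (tendsto_natCast_atTop_atTop (R := ℝ)))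
    exact h0.atTop_div_const (by norm_num)
  have h2 := h.comp h1
  have h3 : ∀ᶠ n : ℕ in atTop, (Real.log (n : ℝ) / 14) ^ 2 *
      Real.exp (-(Real.log (n : ℝ) / 14)) ≤ δ / 196 := by
    have h4 := h2.eventually (Iic_mem_nhds (show (0 : ℝ) < δ / 196 by positivity))
    filter_upwards [h4] with n hn
    simpa using hn
  filter_upwards [h3] with n hn
  have e : (Real.log (n : ℝ)) ^ 2 * Real.exp (-(Real.log n / 14)) =
      196 * ((Real.log (n : ℝ) / 14) ^ 2 * Real.exp (-(Real.log (n : ℝ) / 14))) := by ring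
  rw [e]
  linarith only [hn]

/-- `L * (20 * sqrt (L / n))` is small -/
theorem ev_sqrt (δ : ℝ) (hδ : 0 < δ) :
    ∀ᶠ n : ℕ in atTop, Real.log (n : ℝ) * (20 * Real.sqrt (Real.log n / n)) ≤ δ := by
  filter_upwards [ev_pow 3 ((δ / 20) ^ 2) (by positivity), ev_log 1, eventually_gt_atTop 0]
    with n h1 h2 h3
  have hn : (0 : ℝ) < n := by exact_mod_cast h3
  have hL : (0 : ℝ) < Real.log n := by linarith only [h2]
  have h4 : Real.log (n : ℝ) * Real.sqrt (Real.log n / n) ≤ δ / 20 := by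
    have h5 : (Real.log (n : ℝ) * Real.sqrt (Real.log n / n)) ^ 2 ≤ (δ / 20) ^ 2 := by
      rw [mul_pow, Real.sq_sqrt (by positivity), ← mul_div_assoc, div_le_iff₀ hn]
      calc Real.log (n : ℝ) ^ 2 * Real.log n = Real.log (n : ℝ) ^ 3 := by ring
        _ ≤ _ := h1
    exact le_of_sq_le_sq h5 (by positivity)
  linarith only [h4]

/-- `sqrt n * log n` against `n` -/
theorem ev_rt (δ : ℝ) (hδ : 0 < δ) :
    ∀ᶠ n : ℕ in atTop, Real.sqrt n * Real.log (n : ℝ) ≤ δ * n := by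
  filter_upwards [ev_pow 2 (δ ^ 2) (by positivity), ev_log 1, eventually_gt_atTop 0]
    with n h1 h2 h3
  have hn : (0 : ℝ) < n := by exact_mod_cast h3
  have hL : (0 : ℝ) < Real.log n := by linarith only [h2]
  have h5 : (Real.sqrt n * Real.log (n : ℝ)) ^ 2 ≤ (δ * n) ^ 2 := by
    rw [mul_pow, Real.sq_sqrt hn.le, mul_pow]
    calc (n : ℝ) * Real.log n ^ 2 ≤ n * (δ ^ 2 * n) := by gcongr
      _ = _ := by ring
  exact le_of_sq_le_sq h5 (by positivity)

end Pool.Agent.Helper38.UBL
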