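import Pool.Agent.Helper89.UB.Stmts
import Pool.Agent.Helper38.UB.Lim

set_option autoImplicit false

open Finset

namespace Pool.Agent.Helper89.UB

theorem sdg_zt_re (ρ t : ℝ) : (zt ρ t).re = ρ * Real.cos t := by
  unfold zt
  rw [Complex.re_ofReal_mul, Complex.exp_ofReal_mul_I_re]

theorem sdg_zt_norm (ρ t : ℝ) (hρ : 0 ≤ ρ) : ‖zt ρ t‖ = ρ := by
  unfold zt
  rw [norm_mul, Complex.norm_exp_ofReal_mul_I, mul_one, Complex.norm_real, Real.norm_eq_abs,
    abs_of_nonneg hρ]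

theorem sdg_cos (t : ℝ) (ht : |t| ≤ 1 / 2) : 7 / 8 ≤ Real.cos t := by
  have h := Real.one_sub_sq_div_two_le_cos (x := t)
  have h2 : t ^ 2 ≤ 1 / 4 := by
    rw [← sq_abs]
    nlinarith only [ht, abs_nonneg t]
  linarith only [h, h2]

theorem sdg_E (ρ t : ℝ) (hρ : 8 ≤ ρ) (ht : |t| ≤ 1 / 2) :
    ‖Complex.exp (-zt ρ t)‖ ≤ Real.exp (-(7 / 8 * ρ)) := by
  rw [Complex.norm_exp, Complex.neg_re, sdg_zt_re, Real.exp_le_exp]
  have h := sdg_cos t ht
  nlinarith only [h, hρ]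

theorem sdg_small (ρ : ℝ) (hρ : 8 ≤ ρ) :
    Real.exp (-(7 / 8 * ρ)) ≤ 1 / 100 := by
  have h1 : Real.exp (-(7 / 8 * ρ)) ≤ Real.exp (-7) := by
    rw [Real.exp_le_exp]
    linarith only [hρ]
  have h2 : Real.exp (-7) ≤ 1 / 100 := by
    rw [Real.exp_neg, inv_eq_one_div]
    apply one_div_le_one_div_of_le (by norm_num)
    have h3 : (2.7 : ℝ) ≤ Real.exp 1 := by
      have := Real.exp_one_gt_d9
      linarith only [this]
    have h4 : Real.exp 7 = (Real.exp 1) ^ 7 := by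
      rw [← Real.exp_nat_mul]
      norm_num
    rw [h4]
    calc (100 : ℝ) ≤ 2.7 ^ 7 := by norm_num
      _ ≤ _ := by gcongr
  exact h1.trans h2

theorem sdg_half (ρ : ℝ) (hρ : 8 ≤ ρ) :
    Real.exp (-(7 / 8 * ρ)) ≤ Real.exp (-(ρ / 2)) := by
  rw [Real.exp_le_exp]
  linarith only [hρ]

theorem sdg_ne (ρ t : ℝ) (hρ : 8 ≤ ρ) (ht : |t| ≤ 1 / 2) :
    99 / 100 ≤ ‖1 - Complex.exp (-zt ρ t)‖ ∧ 1 - Complex.exp (-zt ρ t) ∈ Complex.slitPlane := by
  have h := (sdg_E ρ t hρ ht).trans (sdg_small ρ hρ)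
  constructor
  · have h2 := norm_sub_norm_le (1 : ℂ) (Complex.exp (-zt ρ t))
    rw [norm_one] at h2
    linarith only [h, h2]
  · left
    rw [Complex.sub_re, Complex.one_re]
    have h3 := (Complex.abs_re_le_norm (Complex.exp (-zt ρ t)))
    have h4 := le_abs_self (Complex.exp (-zt ρ t)).re
    linarith only [h, h3, h4]

theorem sdg_zt_deriv (ρ t : ℝ) : HasDerivAt (fun t : ℝ => zt ρ t) (Complex.I * zt ρ t) t := by
  unfold zt
  have h1 : HasDerivAt (fun t : ℝ => (t : ℂ) * Complex.I) Complex.I t := by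
    have := (Complex.ofRealCLM.hasDerivAt (x := t)).mul_const Complex.I
    simpa using this
  have h2 := (h1.cexp).const_mul (ρ : ℂ)
  have e : Complex.I * ((ρ : ℂ) * Complex.exp ((t : ℂ) * Complex.I)) =
    (ρ : ℂ) * (Complex.exp ((t : ℂ) * Complex.I) * Complex.I) := by ring
  rw [e]
  exact h2

/-- the derivative of `GG` -/
noncomputable def sdgD (ρ t : ℝ) : ℂ :=
  Complex.I * zt ρ t * Complex.exp (-zt ρ t) / (1 - Complex.exp (-zt ρ t))

theorem sdg_one (ρ t : ℝ) : HasDerivAt (fun t : ℝ => 1 - Complex.exp (-zt ρ t))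
    (Complex.I * zt ρ t * Complex.exp (-zt ρ t)) t := by
  have h1 := ((sdg_zt_deriv ρ t).neg.cexp).const_sub 1
  have e : Complex.I * zt ρ t * Complex.exp (-zt ρ t) =
    -(Complex.exp (-zt ρ t) * -(Complex.I * zt ρ t)) := by ring
  rw [e]
  exact h1

theorem sdg_GG_deriv (ρ t : ℝ) (hρ : 8 ≤ ρ) (ht : |t| ≤ 1 / 2) :
    HasDerivAt (fun t : ℝ => GG ρ t) (sdgD ρ t) t := by
  unfold GG sdgD
  exact (sdg_one ρ t).clog_real (sdg_ne ρ t hρ ht).2

theorem sdg_D_norm (ρ t : ℝ) (hρ : 8 ≤ ρ) (ht : |t| ≤ 1 / 2) :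
    ‖sdgD ρ t‖ ≤ 2 * ρ * Real.exp (-(ρ / 2)) := by
  unfold sdgD
  have h1 := (sdg_ne ρ t hρ ht).1
  rw [norm_div, norm_mul, norm_mul, Complex.norm_I, one_mul,
    sdg_zt_norm ρ t (by linarith only [hρ])]
  rw [div_le_iff₀ (by linarith only [h1])]
  have h2 := (sdg_E ρ t hρ ht).trans (sdg_half ρ hρ)
  have h3 : 0 < Real.exp (-(ρ / 2)) := Real.exp_pos _
  calc ρ * ‖Complex.exp (-zt ρ t)‖ ≤ ρ * Real.exp (-(ρ / 2)) := by gcongr
    _ = 2 * ρ * Real.exp (-(ρ / 2)) * (1 / 2) := by ring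
    _ ≤ _ := by
      apply mul_le_mul_of_nonneg_left _ (by positivity)
      linarith only [h1]

/-- the derivative of `sdgD` -/
noncomputable def sdgD2 (ρ t : ℝ) : ℂ :=
  ((Complex.I * (Complex.I * zt ρ t) * Complex.exp (-zt ρ t) +
    Complex.I * zt ρ t * (Complex.exp (-zt ρ t) * -(Complex.I * zt ρ t))) *
      (1 - Complex.exp (-zt ρ t)) -
    Complex.I * zt ρ t * Complex.exp (-zt ρ t) *
      (Complex.I * zt ρ t * Complex.exp (-zt ρ t))) / (1 - Complex.exp (-zt ρ t)) ^ 2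

theorem sdg_D_deriv (ρ t : ℝ) (hρ : 8 ≤ ρ) (ht : |t| ≤ 1 / 2) :
    HasDerivAt (fun t : ℝ => sdgD ρ t) (sdgD2 ρ t) t := by
  unfold sdgD sdgD2
  have h0 := sdg_zt_deriv ρ t
  have h1 := (h0.const_mul Complex.I).mul (h0.neg.cexp)
  have h2 := sdg_one ρ t
  exact h1.div h2 (Complex.slitPlane_ne_zero (sdg_ne ρ t hρ ht).2)

theorem sdg_D2_norm (ρ t : ℝ) (hρ : 8 ≤ ρ) (ht : |t| ≤ 1 / 2) :
    ‖sdgD2 ρ t‖ ≤ 3 * ρ ^ 2 * Real.exp (-(ρ / 2)) := by
  have h1 := (sdg_ne ρ t hρ ht).1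
  have hne := Complex.slitPlane_ne_zero (sdg_ne ρ t hρ ht).2
  have hE := sdg_E ρ t hρ ht
  have hE2 := hE.trans (sdg_half ρ hρ)
  have hE3 := hE.trans (sdg_small ρ hρ)
  have hz := sdg_zt_norm ρ t (by linarith only [hρ])
  have e : sdgD2 ρ t = (-(zt ρ t * Complex.exp (-zt ρ t)) * (1 - Complex.exp (-zt ρ t)) +
      zt ρ t ^ 2 * Complex.exp (-zt ρ t)) / (1 - Complex.exp (-zt ρ t)) ^ 2 := by
    unfold sdgD2
    congr 1
    linear_combination (Complex.exp (-zt ρ t) * zt ρ t * (1 - Complex.exp (-zt ρ t)) -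
      zt ρ t ^ 2 * Complex.exp (-zt ρ t) * (1 - Complex.exp (-zt ρ t)) -
      zt ρ t ^ 2 * Complex.exp (-zt ρ t) ^ 2) * Complex.I_sq
  rw [e, norm_div, norm_pow]
  rw [div_le_iff₀ (by
    have : 0 < ‖1 - Complex.exp (-zt ρ t)‖ := norm_pos_iff.2 hne
    positivity)]
  generalize hF : Real.exp (-(ρ / 2)) = F at *
  have hF0 : 0 < F := by rw [← hF]; exact Real.exp_pos _
  have hb : ‖1 - Complex.exp (-zt ρ t)‖ ≤ 101 / 100 := by
    refine (norm_sub_le _ _).trans ?_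
    rw [norm_one]
    linarith only [hE3]
  calc ‖-(zt ρ t * Complex.exp (-zt ρ t)) * (1 - Complex.exp (-zt ρ t)) +
      zt ρ t ^ 2 * Complex.exp (-zt ρ t)‖
      ≤ ‖-(zt ρ t * Complex.exp (-zt ρ t)) * (1 - Complex.exp (-zt ρ t))‖ +
        ‖zt ρ t ^ 2 * Complex.exp (-zt ρ t)‖ := norm_add_le _ _
    _ = ρ * ‖Complex.exp (-zt ρ t)‖ * ‖1 - Complex.exp (-zt ρ t)‖ +
        ρ ^ 2 * ‖Complex.exp (-zt ρ t)‖ := by
      rw [norm_mul, norm_neg, norm_mul, norm_mul, norm_pow, hz]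
    _ ≤ ρ * F * (101 / 100) + ρ ^ 2 * F := by gcongr
    _ ≤ 3 * ρ ^ 2 * F * (99 / 100) ^ 2 := by
      have h5 : 0 ≤ ρ * F := by positivity
      have h6 : ρ * F * 8 ≤ ρ ^ 2 * F := by nlinarith only [h5, hρ]
      nlinarith only [h5, h6]
    _ ≤ _ := by gcongr

theorem st_SDG : ST_SDG := by
  unfold ST_SDG
  intro ρ s t hρ hs ht
  refine ⟨?_, ?_, ?_⟩
  · unfold GG
    rw [Complex.exp_log (Complex.slitPlane_ne_zero (sdg_ne ρ t hρ ht).2), mul_sub, mul_one,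
      ← Complex.exp_add, add_neg_cancel, Complex.exp_zero]
  · have h := (convex_Icc (-(1 / 2) : ℝ) (1 / 2)).norm_image_sub_le_of_norm_hasDerivWithin_le
      (f := fun t : ℝ => GG ρ t) (f' := fun t => sdgD ρ t) (C := 2 * ρ * Real.exp (-(ρ / 2)))
      (x := s) (y := t)
      (fun x hx => (sdg_GG_deriv ρ x hρ (abs_le.2 hx)).hasDerivWithinAt)
      (fun x hx => sdg_D_norm ρ x hρ (abs_le.2 hx)) (abs_le.1 hs) (abs_le.1 ht)
    rw [Real.norm_eq_abs] at h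
    exact h
  · have hD : ∀ x : ℝ, |x| ≤ 1 / 2 → ‖sdgD ρ x - sdgD ρ 0‖ ≤
        3 * ρ ^ 2 * Real.exp (-(ρ / 2)) * |x| := by
      intro x hx
      have h := (convex_Icc (-(1 / 2) : ℝ) (1 / 2)).norm_image_sub_le_of_norm_hasDerivWithin_le
        (f := fun t : ℝ => sdgD ρ t) (f' := fun t => sdgD2 ρ t)
        (C := 3 * ρ ^ 2 * Real.exp (-(ρ / 2)))
        (x := 0) (y := x)
        (fun x hx => (sdg_D_deriv ρ x hρ (abs_le.2 hx)).hasDerivWithinAt)
        (fun x hx => sdg_D2_norm ρ x hρ (abs_le.2 hx))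
        (show (0 : ℝ) ∈ Set.Icc (-(1 / 2) : ℝ) (1 / 2) from ⟨by norm_num, by norm_num⟩)
        (abs_le.1 hx)
      rw [Real.norm_eq_abs, sub_zero] at h
      exact h
    have h0 : sdgD ρ 0 = Complex.I * (ρ / (Real.exp ρ - 1) : ℝ) := by
      unfold sdgD zt
      have e1 : Complex.exp (((0 : ℝ) : ℂ) * Complex.I) = 1 := by simp
      rw [e1, mul_one]
      have hne : (1 : ℂ) - Complex.exp (-(ρ : ℂ)) ≠ 0 := by
        have h9 := Complex.slitPlane_ne_zero (sdg_ne ρ 0 hρ (by norm_num)).2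
        unfold zt at h9
        rw [e1, mul_one] at h9
        exact h9
      have hne2 : Complex.exp (ρ : ℂ) - 1 ≠ 0 := by
        intro h
        apply hne
        have h8 : Complex.exp (ρ : ℂ) = 1 := by linear_combination h
        rw [Complex.exp_neg, h8]
        norm_num
      push_cast
      have hx : Complex.exp (ρ : ℂ) * Complex.exp (-(ρ : ℂ)) = 1 := by
        rw [← Complex.exp_add, add_neg_cancel, Complex.exp_zero]
      have e3 : (ρ : ℂ) * Complex.exp (-(ρ : ℂ)) / (1 - Complex.exp (-(ρ : ℂ))) =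
          ρ / (Complex.exp (ρ : ℂ) - 1) := by
        rw [div_eq_div_iff hne hne2]
        linear_combination (ρ : ℂ) * hx
      rw [mul_assoc, mul_div_assoc, e3]
    have hh := (convex_Icc (-|t|) |t|).norm_image_sub_le_of_norm_hasDerivWithin_le
        (f := fun x : ℝ => GG ρ x - (x : ℂ) * sdgD ρ 0) (f' := fun x => sdgD ρ x - sdgD ρ 0)
        (C := 3 * ρ ^ 2 * Real.exp (-(ρ / 2)) * |t|)
        (x := 0) (y := t)
        (fun x hx => by
          have hxt : |x| ≤ |t| := abs_le.2 hx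
          have h1 := sdg_GG_deriv ρ x hρ (hxt.trans ht)
          have h2 : HasDerivAt (fun x : ℝ => (x : ℂ) * sdgD ρ 0) (sdgD ρ 0) x := by
            have := (Complex.ofRealCLM.hasDerivAt (x := x)).mul_const (sdgD ρ 0)
            simpa using this
          exact (h1.sub h2).hasDerivWithinAt)
        (fun x hx => by
          have hxt : |x| ≤ |t| := abs_le.2 hx
          refine (hD x (hxt.trans ht)).trans ?_
          gcongr) (by simp) (by constructor; exact neg_abs_le t; exact le_abs_self t)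
    rw [Real.norm_eq_abs, sub_zero, h0] at hh
    have e2 : GG ρ t - GG ρ 0 - Complex.I * t * (ρ / (Real.exp ρ - 1) : ℝ) =
        GG ρ t - (t : ℂ) * (Complex.I * (ρ / (Real.exp ρ - 1) : ℝ)) -
          (GG ρ 0 - ((0 : ℝ) : ℂ) * (Complex.I * (ρ / (Real.exp ρ - 1) : ℝ))) := by
      push_cast
      ring
    rw [e2]
    refine hh.trans (le_of_eq ?_)
    rw [mul_assoc, ← sq, sq_abs]

end Pool.Agent.Helper89.UB
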