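import Pool.Agent.Helper89.UB.Stmts
import Pool.Agent.Helper38.UB.Lim
import Pool.Agent.Helper38.UB.SDG

set_option autoImplicit false

open Finset MeasureTheory

namespace Pool.Agent.Helper89.UB

theorem sad_cont (n k : ℕ) (a ρ : ℝ) (q : ℂ → ℂ) (hq : Continuous q) :
    Continuous (wk n k a ρ q) := by
  unfold wk zt
  fun_prop

theorem sad_tail (f : ℝ → ℂ) (hf : Continuous f) (φ τ : ℝ) (hφ0 : 0 ≤ φ) (hφ : φ ≤ Real.pi)
    (hτ : 0 ≤ τ) (h : ∀ t, φ ≤ |t| → |t| ≤ Real.pi → ‖f t‖ ≤ τ) :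
    ‖(∫ t in (-Real.pi)..Real.pi, f t) - ∫ t in (-φ)..φ, f t‖ ≤ 7 * τ := by
  have hi : ∀ a b : ℝ, IntervalIntegrable f volume a b := fun a b => hf.intervalIntegrable a b
  have e1 := intervalIntegral.integral_add_adjacent_intervals (hi (-Real.pi) (-φ)) (hi (-φ) φ)
  have e2 := intervalIntegral.integral_add_adjacent_intervals (hi (-Real.pi) φ) (hi φ Real.pi)
  have e3 : (∫ t in (-Real.pi)..Real.pi, f t) - ∫ t in (-φ)..φ, f t =
      (∫ t in (-Real.pi)..(-φ), f t) + ∫ t in φ..Real.pi, f t := by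
    rw [← e2, ← e1]
    ring
  rw [e3]
  have h1 : ‖∫ t in (-Real.pi)..(-φ), f t‖ ≤ τ * |(-φ) - (-Real.pi)| := by
    apply intervalIntegral.norm_integral_le_of_norm_le_const
    intro t ht
    rw [Set.uIoc_of_le (by linarith only [hφ])] at ht
    have ht0 : t ≤ 0 := by
      have := ht.2
      linarith only [this, hφ0]
    apply h
    · rw [abs_of_nonpos ht0]
      have := ht.2
      linarith only [this]
    · rw [abs_of_nonpos ht0]
      have := ht.1
      linarith only [this]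
  have h2 : ‖∫ t in φ..Real.pi, f t‖ ≤ τ * |Real.pi - φ| := by
    apply intervalIntegral.norm_integral_le_of_norm_le_const
    intro t ht
    rw [Set.uIoc_of_le (by linarith only [hφ])] at ht
    have ht0 : 0 ≤ t := by
      have := ht.1
      linarith only [this, hφ0]
    apply h
    · rw [abs_of_nonneg ht0]
      exact ht.1.le
    · rw [abs_of_nonneg ht0]
      exact ht.2
  refine (norm_add_le _ _).trans ?_
  have h3 : |(-φ) - (-Real.pi)| = Real.pi - φ := by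
    rw [abs_of_nonneg (by linarith only [hφ])]
    ring
  have h4 : |Real.pi - φ| = Real.pi - φ := abs_of_nonneg (by linarith only [hφ])
  rw [h3] at h1
  rw [h4] at h2
  have hpi := Real.pi_lt_d2
  have h5 : τ * (Real.pi - φ) ≤ τ * 3.5 := by
    apply mul_le_mul_of_nonneg_left _ hτ
    linarith only [hpi, hφ0]
  linarith only [h1, h2, h5]

theorem sad_norm (f : ℝ → ℂ) (φ : ℝ) (hφ0 : 0 ≤ φ) (hφ : φ ≤ Real.pi)
    (h : ∀ t, |t| ≤ Real.pi → ‖f t‖ ≤ 1.01) :
    ‖∫ t in (-φ)..φ, f t‖ ≤ 7 := by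
  have h1 : ‖∫ t in (-φ)..φ, f t‖ ≤ 1.01 * |φ - (-φ)| := by
    apply intervalIntegral.norm_integral_le_of_norm_le_const
    intro t ht
    rw [Set.uIoc_of_le (by linarith only [hφ0])] at ht
    apply h
    rw [abs_le]
    have h2 := ht.1
    have h3 := ht.2
    constructor
    · linarith only [h2, hφ]
    · linarith only [h3, hφ]
  refine h1.trans ?_
  rw [abs_of_nonneg (by linarith only [hφ0])]
  have hpi := Real.pi_lt_d2
  linarith only [hpi, hφ]

theorem sad_re (F : ℝ → ℂ) (hF : Continuous F) (φ : ℝ) (hφ0 : 0 ≤ φ)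
    (h : ∀ t, |t| ≤ φ → (F t).re ≤ 0) : (∫ t in (-φ)..φ, F t).re ≤ 0 := by
  have h1 := Complex.reCLM.intervalIntegral_comp_comm (hF.intervalIntegrable (μ := volume) (-φ) φ)
  simp only [Complex.reCLM_apply] at h1
  rw [← h1]
  have h2 : 0 ≤ ∫ t in (-φ)..φ, -(F t).re := by
    apply intervalIntegral.integral_nonneg (by linarith only [hφ0])
    intro t ht
    have := h t (abs_le.2 ht)
    linarith only [this]
  rw [intervalIntegral.integral_neg] at h2
  linarith only [h2]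

theorem sad_sym (f g h : ℝ → ℂ) (hf : Continuous f) (hg : Continuous g) (hh : Continuous h)
    (φ : ℝ) (hφ0 : 0 ≤ φ) (hs : ∀ t s, |t| ≤ φ → |s| ≤ φ →
      (f t * g s + g t * f s - 2 * (h t * h s)).re ≤ 0) :
    ((∫ t in (-φ)..φ, f t) * (∫ t in (-φ)..φ, g t) - (∫ t in (-φ)..φ, h t) ^ 2).re ≤ 0 := by
  have hi : ∀ {F : ℝ → ℂ}, Continuous F → IntervalIntegrable F volume (-φ) φ :=
    fun hF => hF.intervalIntegrable (-φ) φ
  have key : ∀ (A B C : ℂ), (∫ t in (-φ)..φ, (A * f t + B * g t - C * h t)) =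
      A * (∫ t in (-φ)..φ, f t) + B * (∫ t in (-φ)..φ, g t) - C * (∫ t in (-φ)..φ, h t) := by
    intro A B C
    rw [intervalIntegral.integral_sub, intervalIntegral.integral_add,
      intervalIntegral.integral_const_mul, intervalIntegral.integral_const_mul,
      intervalIntegral.integral_const_mul]
    · exact hi (by fun_prop)
    · exact hi (by fun_prop)
    · exact hi (by fun_prop)
    · exact hi (by fun_prop)
  obtain ⟨F, hF⟩ : ∃ F, F = ∫ t in (-φ)..φ, f t := ⟨_, rfl⟩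
  obtain ⟨G, hG⟩ : ∃ G, G = ∫ t in (-φ)..φ, g t := ⟨_, rfl⟩
  obtain ⟨H, hH⟩ : ∃ H, H = ∫ t in (-φ)..φ, h t := ⟨_, rfl⟩
  have h1 : ∀ t, |t| ≤ φ → (G * f t + F * g t - 2 * H * h t).re ≤ 0 := by
    intro t ht
    have h2 := key (g t) (f t) (2 * h t)
    rw [← hF, ← hG, ← hH] at h2
    have h3 : G * f t + F * g t - 2 * H * h t = g t * F + f t * G - 2 * h t * H := by ring
    rw [h3, ← h2]
    apply sad_re _ (by fun_prop) φ hφ0
    intro s hs2
    have h4 := hs t s ht hs2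
    have h5 : g t * f s + f t * g s - 2 * h t * h s = f t * g s + g t * f s - 2 * (h t * h s) := by
      ring
    rw [h5]
    exact h4
  have h2 := sad_re (fun t => G * f t + F * g t - 2 * H * h t) (by fun_prop) φ hφ0 h1
  rw [key, ← hF, ← hG, ← hH] at h2
  rw [← hF, ← hG, ← hH]
  have h3 : G * F + F * G - 2 * H * H = ((2 : ℝ) : ℂ) * (F * G - H ^ 2) := by
    push_cast
    ring
  rw [h3, Complex.re_ofReal_mul] at h2
  linarith only [h2]

theorem sad_pt (A B D : ℂ) (x : ℝ) (hx : 0 ≤ x) (hA : ‖A - 1‖ ≤ 1 / 20) (hB : ‖B - 1‖ ≤ 1 / 20)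
    (hD : ‖D + (x : ℝ)‖ ≤ x / 10) : (A * B * D).re ≤ 0 := by
  have e : A * B * D = ((-x : ℝ) : ℂ) + ((A * B) * (D + (x : ℝ)) - (A * B - 1) * (x : ℝ)) := by
    push_cast
    ring
  have h1 : ‖A * B - 1‖ ≤ 0.1025 := by
    have e2 : A * B - 1 = (A - 1) * (B - 1) + (A - 1) + (B - 1) := by ring
    rw [e2]
    refine (norm_add₃_le).trans ?_
    rw [norm_mul]
    have h2 : ‖A - 1‖ * ‖B - 1‖ ≤ 1 / 20 * (1 / 20) := by gcongr
    norm_num at h2 ⊢
    linarith only [h2, hA, hB]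
  have h2 : ‖A * B‖ ≤ 1.1025 := by
    have e2 : A * B = (A * B - 1) + 1 := by ring
    rw [e2]
    refine (norm_add_le _ _).trans ?_
    rw [norm_one]
    norm_num at h1 ⊢
    linarith only [h1]
  have h3 : ‖(A * B) * (D + (x : ℝ)) - (A * B - 1) * (x : ℝ)‖ ≤ 1.1025 * (x / 10) + 0.1025 * x := by
    refine (norm_sub_le _ _).trans ?_
    rw [norm_mul, norm_mul (A * B - 1), Complex.norm_real, Real.norm_eq_abs, abs_of_nonneg hx]
    gcongr
  rw [e, Complex.add_re, Complex.ofReal_re]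
  have h4 := (le_abs_self _).trans (Complex.abs_re_le_norm
    ((A * B) * (D + (x : ℝ)) - (A * B - 1) * (x : ℝ)))
  norm_num at h3
  linarith only [h3, h4, hx]

theorem sad_wk (n k : ℕ) (a ρ : ℝ) (q : ℂ → ℂ) (t s : ℝ)
    (h0 : Complex.exp (ρ : ℂ) - 1 ≠ 0) (ht : Complex.exp (zt ρ t) - 1 ≠ 0)
    (hs : Complex.exp (zt ρ s) - 1 ≠ 0) :
    wk n (k + 2) a ρ q t * wk n k a ρ q s + wk n k a ρ q t * wk n (k + 2) a ρ q s -
      2 * (wk n (k + 1) a ρ q t * wk n (k + 1) a ρ q s) =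
    2 * (wk n (k + 1) a ρ q t * wk n (k + 1) a ρ q s *
      (((Complex.exp (zt ρ t) - 1) / (Complex.exp (zt ρ s) - 1) +
        (Complex.exp (zt ρ s) - 1) / (Complex.exp (zt ρ t) - 1)) / 2 - 1)) := by
  unfold wk
  generalize Complex.exp (ρ : ℂ) - 1 = F0 at *
  generalize Complex.exp (zt ρ t) - 1 = Ft at *
  generalize Complex.exp (zt ρ s) - 1 = Fs at *
  generalize Complex.exp (-(a : ℂ) * (zt ρ t - ρ)) = X1
  generalize Complex.exp (-(a : ℂ) * (zt ρ s - ρ)) = X2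
  generalize q (zt ρ t) = Y1
  generalize q (zt ρ s) = Y2
  generalize Complex.exp (-((n : ℂ) * t * Complex.I)) = Z1
  generalize Complex.exp (-((n : ℂ) * s * Complex.I)) = Z2
  obtain ⟨u, hu⟩ : ∃ u, u = Ft / F0 := ⟨_, rfl⟩
  obtain ⟨v, hv⟩ : ∃ v, v = Fs / F0 := ⟨_, rfl⟩
  have hu0 : u ≠ 0 := by rw [hu]; exact div_ne_zero ht h0
  have hv0 : v ≠ 0 := by rw [hv]; exact div_ne_zero hs h0
  have e1 : Ft / Fs = u / v := by
    rw [hu, hv]
    field_simp
  have e2 : Fs / Ft = v / u := by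
    rw [hu, hv]
    field_simp
  rw [e1, e2, ← hu, ← hv]
  have e3 : u ^ (k + 1) * v ^ (k + 1) * (u / v) = u ^ (k + 2) * v ^ k := by
    field_simp
    ring
  have e4 : u ^ (k + 1) * v ^ (k + 1) * (v / u) = u ^ k * v ^ (k + 2) := by
    field_simp
    ring
  linear_combination (-(X1 * X2 * Y1 * Y2 * Z1 * Z2)) * e3 - (X1 * X2 * Y1 * Y2 * Z1 * Z2) * e4

theorem sad_low (F : ℝ → ℂ) (hF : Continuous F) (φ r c : ℝ) (hr : 0 ≤ r) (hφ0 : r ≤ φ)
    (h0 : ∀ t, |t| ≤ φ → 0 ≤ (F t).re) (h1 : ∀ t, |t| ≤ r → c ≤ (F t).re) :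
    2 * r * c ≤ (∫ t in (-φ)..φ, F t).re := by
  have e1 := Complex.reCLM.intervalIntegral_comp_comm (hF.intervalIntegrable (μ := volume) (-φ) φ)
  simp only [Complex.reCLM_apply] at e1
  rw [← e1]
  have hG : Continuous (fun t => (F t).re) := Complex.continuous_re.comp hF
  have hi : ∀ a b : ℝ, IntervalIntegrable (fun t => (F t).re) volume a b :=
    fun a b => hG.intervalIntegrable a b
  have e2 := intervalIntegral.integral_add_adjacent_intervals (hi (-φ) (-r)) (hi (-r) r)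
  have e3 := intervalIntegral.integral_add_adjacent_intervals (hi (-φ) r) (hi r φ)
  have p1 : 0 ≤ ∫ t in (-φ)..(-r), (F t).re := by
    apply intervalIntegral.integral_nonneg (by linarith only [hφ0])
    intro t ht
    apply h0
    rw [abs_le]
    exact ⟨ht.1, ht.2.trans (by linarith only [hr, hφ0])⟩
  have p2 : 0 ≤ ∫ t in r..φ, (F t).re := by
    apply intervalIntegral.integral_nonneg hφ0
    intro t ht
    apply h0
    rw [abs_le]
    exact ⟨le_trans (by linarith only [hr, hφ0]) ht.1, ht.2⟩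
  have p3 : ∫ t in (-r)..r, c ≤ ∫ t in (-r)..r, (F t).re := by
    apply intervalIntegral.integral_mono_on (by linarith only [hr])
      (continuous_const.intervalIntegrable _ _) (hi _ _)
    intro t ht
    exact h1 t (abs_le.2 ht)
  rw [intervalIntegral.integral_const, smul_eq_mul] at p3
  rw [← e3, ← e2]
  linarith only [p1, p2, p3]

theorem st_SAD (h1 : ST_SD1) (h3 : ST_SD3) (h4 : ST_SD4) (h5 : ST_SD5) : ST_SAD := by
  unfold ST_SAD
  obtain ⟨n1, hn1⟩ := h1
  obtain ⟨n3, hn3⟩ := h3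
  obtain ⟨n4, hn4⟩ := h4
  obtain ⟨n5, hn5⟩ := h5
  have hev := (Pool.Agent.Helper38.UBL.ev_log 100).and
    ((Pool.Agent.Helper38.UBL.ev_sqrt (1 / 1000000) (by norm_num)).and
      ((Filter.eventually_ge_atTop 1000).and ((Filter.eventually_ge_atTop n1).and
        ((Filter.eventually_ge_atTop n3).and ((Filter.eventually_ge_atTop n4).and
          (Filter.eventually_ge_atTop n5))))))
  obtain ⟨n₀, hn₀⟩ := Filter.eventually_atTop.1 hev
  refine ⟨n₀, fun n hn m hm1 hm2 a ha0 ha1 q hqc hq => ?_⟩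
  obtain ⟨hL, hrt, hnp, g1, g3, g4, g5⟩ := hn₀ n hn
  obtain ⟨ρ, hρ1, hρ2, hsad⟩ := hn1 n g1 m hm1 hm2 a ha0 ha1
  have S3 := hn3 n g3 m hm1 hm2 a ha0 ha1 ρ hρ1 hρ2 hsad q hq
  have S4 := hn4 n g4 m hm1 hm2 a ha0 ha1 ρ hρ1 hρ2 hsad q hq
  have S5 := hn5 n g5 ρ hρ1 hρ2
  refine ⟨ρ, by linarith only [hρ1, hL], by linarith only [hρ2, hL], fun him => ?_⟩
  have hn1000 : (1000 : ℝ) ≤ n := by exact_mod_cast hnp
  have hn0 : (0 : ℝ) < n := by linarith only [hn1000]
  obtain ⟨k, rfl⟩ : ∃ k, m = k + 1 := by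
    rcases Nat.eq_zero_or_pos m with h | h
    · exfalso
      rw [h] at hm1
      norm_num at hm1
      omega
    · exact ⟨m - 1, by omega⟩
  have hmn : ((k + 1 : ℕ) : ℝ) ≤ n := by
    have h9 : ((k + 1 : ℕ) : ℝ) * 100 ≤ ((k + 1 : ℕ) : ℝ) * Real.log n := by gcongr
    linarith only [h9, hm2, hn0]
  have hm0 : (0 : ℝ) < ((k + 1 : ℕ) : ℝ) := by positivity
  have hL0 : 0 < Real.log (n : ℝ) := by linarith only [hL]
  obtain ⟨φ, hφ⟩ : ∃ φ, φ = 20 * Real.sqrt (Real.log (n : ℝ) / n) := ⟨_, rfl⟩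
  rw [← hφ] at hrt
  have hφ0 : 0 ≤ φ := by
    rw [hφ]
    positivity
  have hφ1 : φ ≤ 1 / 10000 := by nlinarith only [hL, hrt, hφ0]
  have hφsq : n * φ ^ 2 = 400 * Real.log n := by
    rw [hφ, mul_pow, Real.sq_sqrt (by positivity)]
    rw [show (n : ℝ) * (20 ^ 2 * (Real.log n / n)) = 400 * (n * (Real.log n / n)) by ring,
      mul_div_cancel₀ _ hn0.ne']
  have hpi := Real.pi_gt_three
  have hφpi : φ ≤ Real.pi := by linarith only [hφ1, hpi]
  rw [← hφ] at S4 S5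
  have hz0 : zt ρ 0 = (ρ : ℂ) := by unfold zt; simp
  have hF0 : Complex.exp (ρ : ℂ) - 1 ≠ 0 := by
    have := (S5 0 0 (by rw [abs_zero]; exact hφ0) (by rw [abs_zero]; exact hφ0)).1
    rwa [hz0] at this
  have hexp8 : Real.exp (-(8 * Real.log n)) = ((n : ℝ) ^ 8)⁻¹ := by
    rw [Real.exp_neg, ← Real.exp_log hn0, ← Real.exp_nat_mul, Real.log_exp]
    norm_num
  obtain ⟨B, hB⟩ : ∃ B : ℝ, B = 8 * ((n : ℝ) ^ 8)⁻¹ := ⟨_, rfl⟩
  have hn80 : 0 < ((n : ℝ) ^ 8)⁻¹ := by positivity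
  have hc := fun j => sad_cont n j a ρ q hqc
  have hJI : ∀ j, k ≤ j → ‖Jk n j a ρ q - ∫ t in (-φ)..φ, wk n j a ρ q t‖ ≤ B := by
    intro j hj
    unfold Jk
    have := sad_tail (wk n j a ρ q) (hc j) φ (1.01 * ((n : ℝ) ^ 8)⁻¹) hφ0 hφpi (by positivity)
      (fun t ht1 ht2 => by
        refine (S3 j (by omega) t ht2).trans ?_
        rw [← hexp8]
        gcongr
        have h9 : φ ^ 2 ≤ t ^ 2 := by
          rw [← sq_abs t]
          gcongr
        have h10 : n * φ ^ 2 ≤ n * t ^ 2 := by gcongr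
        linarith only [h10, hφsq])
    refine this.trans ?_
    rw [hB]
    norm_num
    linarith only [hn80]
  have h101 : ∀ j, k ≤ j → ∀ t, |t| ≤ Real.pi → ‖wk n j a ρ q t‖ ≤ 1.01 := by
    intro j hj t ht
    refine (S3 j (by omega) t ht).trans ?_
    have h9 : Real.exp (-(n * t ^ 2 / 50)) ≤ 1 := by
      rw [Real.exp_le_one_iff]
      have : 0 ≤ (n : ℝ) * t ^ 2 / 50 := by positivity
      linarith only [this]
    norm_num at h9 ⊢
    linarith only [h9]
  have hI7 : ∀ j, k ≤ j → ‖∫ t in (-φ)..φ, wk n j a ρ q t‖ ≤ 7 := fun j hj =>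
    sad_norm _ φ hφ0 hφpi (h101 j hj)
  have hJ7 : ∀ j, k ≤ j → ‖Jk n j a ρ q‖ ≤ 7 := fun j hj =>
    sad_norm _ Real.pi (by linarith only [hpi]) le_rfl (h101 j hj)
  -- main arcs
  have hwA : ∀ t, wk n (k + 1) a ρ q t = ((Real.exp (-(n * t ^ 2 / 2)) : ℝ) : ℂ) *
      (wk n (k + 1) a ρ q t * Complex.exp ((n : ℂ) * t ^ 2 / 2)) := by
    intro t
    have h9 : ((Real.exp (-(n * t ^ 2 / 2)) : ℝ) : ℂ) * Complex.exp ((n : ℂ) * t ^ 2 / 2) = 1 := by
      push_cast
      rw [← Complex.exp_add, neg_add_cancel, Complex.exp_zero]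
    linear_combination (-(wk n (k + 1) a ρ q t)) * h9
  have hsym := sad_sym (wk n (k + 2) a ρ q) (wk n k a ρ q) (wk n (k + 1) a ρ q) (hc _) (hc _)
    (hc _) φ hφ0 (fun t s ht hs => by
      rw [sad_wk n k a ρ q t s hF0 (S5 s t hs ht).1 (S5 t s ht hs).1]
      rw [hwA t, hwA s]
      have At := S4 t ht
      have As := S4 s hs
      have HD := (S5 s t hs ht).2
      generalize wk n (k + 1) a ρ q t * Complex.exp ((n : ℂ) * t ^ 2 / 2) = A at *
      generalize wk n (k + 1) a ρ q s * Complex.exp ((n : ℂ) * s ^ 2 / 2) = A' at *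
      generalize ((Complex.exp (zt ρ t) - 1) / (Complex.exp (zt ρ s) - 1) +
        (Complex.exp (zt ρ s) - 1) / (Complex.exp (zt ρ t) - 1)) / 2 - 1 = D at *
      have hx : 0 ≤ ρ ^ 2 * (t - s) ^ 2 / 2 := by positivity
      have hp := sad_pt A A' D (ρ ^ 2 * (t - s) ^ 2 / 2) hx At As (by
        refine HD.trans (le_of_eq ?_)
        ring)
      have e9 : 2 * (((Real.exp (-(n * t ^ 2 / 2)) : ℝ) : ℂ) * A *
          (((Real.exp (-(n * s ^ 2 / 2)) : ℝ) : ℂ) * A') * D) =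
          ((2 * Real.exp (-(n * t ^ 2 / 2)) * Real.exp (-(n * s ^ 2 / 2)) : ℝ) : ℂ) *
            (A * A' * D) := by
        push_cast
        ring
      rw [e9, Complex.re_ofReal_mul]
      apply mul_nonpos_of_nonneg_of_nonpos (by positivity) hp)
  -- lower bound
  obtain ⟨r, hr⟩ : ∃ r : ℝ, r = Real.sqrt (1 / n) := ⟨_, rfl⟩
  have hr0 : 0 < r := by
    rw [hr]
    positivity
  have hrsq : n * r ^ 2 = 1 := by
    rw [hr, Real.sq_sqrt (by positivity), mul_one_div_cancel hn0.ne']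
  have hrφ : r ≤ φ := by
    have h9 : r ≤ Real.sqrt (Real.log (n : ℝ) / n) := by
      rw [hr]
      apply Real.sqrt_le_sqrt
      have : (1 : ℝ) ≤ Real.log n := by linarith only [hL]
      gcongr
    rw [hφ]
    linarith only [h9, hr0]
  have hA95 : ∀ t, |t| ≤ φ → 0.95 * Real.exp (-(n * t ^ 2 / 2)) ≤ (wk n (k + 1) a ρ q t).re := by
    intro t ht
    have At := S4 t ht
    rw [hwA t, Complex.re_ofReal_mul]
    generalize wk n (k + 1) a ρ q t * Complex.exp ((n : ℂ) * t ^ 2 / 2) = A at *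
    have h9 : 0.95 ≤ A.re := by
      have h10 := (abs_le.1 ((Complex.abs_re_le_norm (A - 1)).trans At)).1
      rw [Complex.sub_re, Complex.one_re] at h10
      norm_num
      linarith only [h10]
    rw [mul_comm]
    gcongr
  have hlow := sad_low (wk n (k + 1) a ρ q) (hc _) φ r (0.95 * (1 / 2)) hr0.le hrφ
    (fun t ht => le_trans (by positivity) (hA95 t ht))
    (fun t ht => by
      refine le_trans ?_ (hA95 t (ht.trans hrφ))
      have h9 : 1 / 2 ≤ Real.exp (-(n * t ^ 2 / 2)) := by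
        have h10 := Real.add_one_le_exp (-(n * t ^ 2 / 2))
        have h11 : n * t ^ 2 ≤ 1 := by
          rw [← hrsq, ← sq_abs t]
          gcongr
        linarith only [h10, h11]
      gcongr)
  have hJm := hJI (k + 1) (by omega)
  have hJa := hJI k le_rfl
  have hJb := hJI (k + 2) (by omega)
  have hIm := hI7 (k + 1) (by omega)
  have hIa := hI7 k le_rfl
  have hIb := hI7 (k + 2) (by omega)
  have hJm7 := hJ7 (k + 1) (by omega)
  have hJa7 := hJ7 k le_rfl
  have hJb7 := hJ7 (k + 2) (by omega)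
  generalize (∫ t in (-φ)..φ, wk n (k + 1) a ρ q t) = Im at *
  generalize (∫ t in (-φ)..φ, wk n k a ρ q t) = Ia at *
  generalize (∫ t in (-φ)..φ, wk n (k + 2) a ρ q t) = Ib at *
  have e1 : k + 1 - 1 = k := by omega
  rw [e1]
  have e2 : k + 1 + 1 = k + 2 := rfl
  rw [e2]
  generalize Jk n (k + 1) a ρ q = Jm at *
  generalize Jk n k a ρ q = Ja at *
  generalize Jk n (k + 2) a ρ q = Jb at *
  have hB0 : 0 ≤ B := by
    rw [hB]
    positivity
  -- size of `B`
  have hBn : B * n ^ 8 = 8 := by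
    rw [hB, mul_assoc, inv_mul_cancel₀ (by positivity), mul_one]
  have hn6 : (1000 : ℝ) ^ 2 ≤ n ^ 2 := by gcongr
  have hn7 : (1 : ℝ) ≤ n ^ 4 := one_le_pow₀ (by linarith only [hn1000])
  have hBr : B ≤ 0.05 * r := by
    have h9 : 1 / (n : ℝ) ≤ r := by
      rw [hr]
      apply Real.le_sqrt_of_sq_le
      rw [div_pow, one_pow]
      apply one_div_le_one_div_of_le hn0
      nlinarith only [hn1000]
    have h10 : B ≤ 0.05 * (1 / n) := by
      rw [mul_one_div, le_div_iff₀ hn0]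
      have h11 : B * n * (n ^ 7) = 8 := by rw [← hBn]; ring
      have h12 : (1000000 : ℝ) ≤ n ^ 7 := by
        calc (1000000 : ℝ) = 1000 ^ 2 * 1 := by norm_num
          _ ≤ n ^ 2 * n ^ 4 := by gcongr
          _ = n ^ 6 * 1 := by ring
          _ ≤ n ^ 6 * n := by
            have : (1 : ℝ) ≤ n := by linarith only [hn1000]
            gcongr
          _ = n ^ 7 := by ring
      have h13 : 0 ≤ B * n := by positivity
      have h14 : B * n * 1000000 ≤ B * n * n ^ 7 := by gcongr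
      norm_num
      linarith only [h11, h14]
    calc B ≤ 0.05 * (1 / n) := h10
      _ ≤ 0.05 * r := by gcongr
  have hre : 0.9 * r ≤ Jm.re := by
    have h9 := (abs_le.1 ((Complex.abs_re_le_norm (Jm - Im)).trans hJm)).1
    rw [Complex.sub_re] at h9
    norm_num at hlow hBr ⊢
    linarith only [h9, hlow, hBr]
  refine ⟨lt_of_lt_of_le (by positivity) hre, ?_⟩
  have c1 : (Ja * Jb).re ≤ (Ib * Ia).re + 14 * B := by
    have e3 : Ja * Jb = Ib * Ia + (Ja * (Jb - Ib) + Ib * (Ja - Ia)) := by ring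
    rw [e3, Complex.add_re]
    have h9 := (le_abs_self _).trans (Complex.abs_re_le_norm (Ja * (Jb - Ib) + Ib * (Ja - Ia)))
    have h10 : ‖Ja * (Jb - Ib) + Ib * (Ja - Ia)‖ ≤ 7 * B + 7 * B := by
      refine (norm_add_le _ _).trans ?_
      rw [norm_mul, norm_mul]
      gcongr
    linarith only [h9, h10]
  have c2 : (Im ^ 2).re ≤ Jm.re ^ 2 + 14 * B := by
    have e3 : Im ^ 2 = Jm ^ 2 + (Jm + Im) * (Im - Jm) := by ring
    rw [e3, Complex.add_re]
    have h9 := (le_abs_self _).trans (Complex.abs_re_le_norm ((Jm + Im) * (Im - Jm)))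
    have h10 : ‖(Jm + Im) * (Im - Jm)‖ ≤ (7 + 7) * B := by
      rw [norm_mul]
      have h11 : ‖Jm + Im‖ ≤ 7 + 7 := (norm_add_le _ _).trans (add_le_add hJm7 hIm)
      have h12 : ‖Im - Jm‖ ≤ B := by rw [norm_sub_rev]; exact hJm
      gcongr
    have h13 : (Jm ^ 2).re = Jm.re ^ 2 := by
      rw [sq, Complex.mul_re, him]
      ring
    rw [h13]
    linarith only [h9, h10]
  rw [Complex.sub_re] at hsym
  have c3 : 28 * B ≤ 1 / (4 * ((k + 1 : ℕ) : ℝ)) * Jm.re ^ 2 := by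
    have h9 : (0.9 * r) ^ 2 ≤ Jm.re ^ 2 := by gcongr
    have h10 : 28 * B ≤ 1 / (4 * ((k + 1 : ℕ) : ℝ)) * (0.9 * r) ^ 2 := by
      rw [one_div_mul_eq_div, le_div_iff₀ (by positivity)]
      have h11 : (28 * B * (4 * ((k + 1 : ℕ) : ℝ))) * n ≤ (0.9 * r) ^ 2 * n := by
        have h12 : (0.9 * r) ^ 2 * n = 0.81 * (n * r ^ 2) := by ring
        rw [h12, hrsq]
        have h13 : (28 * B * (4 * ((k + 1 : ℕ) : ℝ))) * n ≤ (28 * B * (4 * (n : ℝ))) * n := by
          gcongr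
        have h14 : (28 * B * (4 * (n : ℝ))) * n * n ^ 6 = 112 * 8 := by
          rw [← hBn]
          ring
        have h15 : (1000000 : ℝ) ≤ n ^ 6 := by
          calc (1000000 : ℝ) = 1000 ^ 2 * 1 := by norm_num
            _ ≤ n ^ 2 * n ^ 4 := by gcongr
            _ = n ^ 6 := by ring
        have h16 : (28 * B * (4 * (n : ℝ))) * n * 1000000 ≤ (28 * B * (4 * (n : ℝ))) * n * n ^ 6 := by
          gcongr
        norm_num at h13 h14 h16 ⊢
        linarith only [h13, h14, h16]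
      exact le_of_mul_le_mul_right h11 hn0
    refine h10.trans ?_
    gcongr
  have e4 : (1 + 1 / (4 * ((k + 1 : ℕ) : ℝ))) * Jm.re ^ 2 = Jm.re ^ 2 +
      1 / (4 * ((k + 1 : ℕ) : ℝ)) * Jm.re ^ 2 := by ring
  rw [e4]
  linarith only [c1, c2, c3, hsym]

end Pool.Agent.Helper89.UB
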