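import Pool.Agent.Helper89.UB.Stmts
import Pool.Agent.Helper38.UB.Lim

set_option autoImplicit false

open Finset

namespace Pool.Agent.Helper89.UB

theorem st_SD1 : ST_SD1 := by
  unfold ST_SD1
  have hev := (Pool.Agent.Helper38.UBL.ev_log 7).and
    ((Pool.Agent.Helper38.UBL.ev_rt (1 / 100) (by norm_num)).and
      (Filter.eventually_gt_atTop 0))
  obtain ⟨n₀, hn₀⟩ := Filter.eventually_atTop.1 hev
  refine ⟨n₀, fun n hn m hm1 hm2 a ha0 ha1 => ?_⟩
  obtain ⟨hL, hrt, hnp⟩ := hn₀ n hn
  have hn0 : (0 : ℝ) < n := by exact_mod_cast hnp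
  have hm0 : (0 : ℝ) ≤ m := Nat.cast_nonneg m
  generalize hLL : Real.log (n : ℝ) = L at *
  have hL0 : (0 : ℝ) < L := by linarith only [hL]
  have hcont : ContinuousOn (fun ρ : ℝ => (m : ℝ) * (ρ / (1 - Real.exp (-ρ))) - a * ρ)
      (Set.Icc (L / 7) (1.5 * L)) := by
    refine ContinuousOn.sub (ContinuousOn.mul continuousOn_const
      (ContinuousOn.div continuousOn_id ?_ ?_)) (by fun_prop)
    · fun_prop
    · intro x hx
      have hx0 : 0 < x := by
        have := hx.1
        linarith only [this, hL0]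
      have : Real.exp (-x) < 1 := by
        rw [Real.exp_lt_one_iff]
        linarith only [hx0]
      linarith only [this]
  have hle : L / 7 ≤ 1.5 * L := by linarith only [hL0]
  have hivt := intermediate_value_Icc hle hcont
  have hmem : (n : ℝ) ∈ Set.Icc ((fun ρ : ℝ => (m : ℝ) * (ρ / (1 - Real.exp (-ρ))) - a * ρ) (L / 7))
      ((fun ρ : ℝ => (m : ℝ) * (ρ / (1 - Real.exp (-ρ))) - a * ρ) (1.5 * L)) := by
    constructor
    · simp only
      have he : Real.exp (-(L / 7)) ≤ 1 / 2 := by
        have h1 : Real.exp (-(L / 7)) ≤ Real.exp (-1) := by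
          rw [Real.exp_le_exp]
          linarith only [hL]
        have h2 : Real.exp (-1) ≤ 1 / 2 := by
          rw [Real.exp_neg, inv_eq_one_div]
          apply one_div_le_one_div_of_le (by norm_num)
          linarith only [Real.add_one_le_exp (1 : ℝ)]
        exact h1.trans h2
      have h3 : (m : ℝ) * (L / 7 / (1 - Real.exp (-(L / 7)))) ≤ (m : ℝ) * (L / 7 / (1 / 2)) := by
        apply mul_le_mul_of_nonneg_left _ hm0
        apply div_le_div_of_nonneg_left (by positivity) (by norm_num)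
        linarith only [he]
      have h4 : 0 ≤ a * (L / 7) := by positivity
      have h5 : (m : ℝ) * (L / 7 / (1 / 2)) = (m : ℝ) * L * (2 / 7) := by ring
      linarith only [h3, h4, h5, hm2, hn0]
    · simp only
      have he1 : Real.exp (-(1.5 * L)) < 1 := by
        rw [Real.exp_lt_one_iff]
        linarith only [hL0]
      have he0 : 0 < Real.exp (-(1.5 * L)) := Real.exp_pos _
      have h3 : (m : ℝ) * (1.5 * L) ≤ (m : ℝ) * (1.5 * L / (1 - Real.exp (-(1.5 * L)))) := by
        apply mul_le_mul_of_nonneg_left _ hm0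
        rw [le_div_iff₀ (by linarith only [he1])]
        nlinarith only [he0, hL0]
      have h4 : a * (1.5 * L) ≤ 1.5 * (1 / 100 * n) := by
        calc a * (1.5 * L) = 1.5 * (a * L) := by ring
          _ ≤ 1.5 * (Real.sqrt n * L) := by gcongr
          _ ≤ _ := by gcongr
      have h5 : (m : ℝ) * (1.5 * L) = 1.5 * (m * L) := by ring
      have h6 : (n : ℝ) ≤ 1.46 * (m * L) := by linarith only [hm1, show 1.46 * (m : ℝ) * L = 1.46 * (m * L) by ring]
      norm_num at h3 h4 h5 h6 ⊢
      linarith only [h3, h4, h5, h6, hn0]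
  obtain ⟨ρ, hρ, hρe⟩ := hivt hmem
  exact ⟨ρ, hρ.1, hρ.2, hρe⟩

end Pool.Agent.Helper89.UB
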