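import Pool.Agent.Helper89.UB.Stmts
import Pool.Agent.Helper38.UB.Lim
import Pool.Agent.Helper38.UB.SDG

set_option autoImplicit false

open Finset

namespace Pool.Agent.Helper89.UB

theorem sd4_eit (t : ℝ) (ht : |t| ≤ 1) :
    ‖Complex.exp ((t : ℂ) * Complex.I) - 1 - t * Complex.I + t ^ 2 / 2‖ ≤ |t| ^ 3 := by
  have h1 := Complex.exp_bound (x := (t : ℂ) * Complex.I) (by
    rw [norm_mul, Complex.norm_I, mul_one, Complex.norm_real, Real.norm_eq_abs]
    exact ht) (n := 3) (by norm_num)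
  have e : Complex.exp ((t : ℂ) * Complex.I) - 1 - t * Complex.I + t ^ 2 / 2 =
      Complex.exp ((t : ℂ) * Complex.I) - ∑ m ∈ range 3, ((t : ℂ) * Complex.I) ^ m /
        (m.factorial : ℂ) := by
    simp only [Finset.sum_range_succ, Finset.sum_range_zero, Nat.factorial]
    push_cast
    linear_combination ((t : ℂ) ^ 2 / 2) * Complex.I_sq
  rw [e]
  refine h1.trans ?_
  rw [norm_mul, Complex.norm_I, mul_one, Complex.norm_real, Real.norm_eq_abs]
  norm_num [Nat.factorial]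
  have : 0 ≤ |t| ^ 3 := by positivity
  nlinarith only [this]

theorem sd4_fin (Eq q : ℂ) (hE : ‖Eq‖ ≤ 1 / 100) (hq : ‖q - 1‖ ≤ 1 / 100) :
    ‖Complex.exp Eq * q - 1‖ ≤ 1 / 20 := by
  have h1 := Complex.norm_exp_sub_one_le (x := Eq) (by linarith only [hE])
  have e : Complex.exp Eq * q - 1 = (Complex.exp Eq - 1) * (q - 1) + (Complex.exp Eq - 1) +
      (q - 1) := by ring
  rw [e]
  refine (norm_add₃_le).trans ?_
  rw [norm_mul]
  have h2 : ‖Complex.exp Eq - 1‖ ≤ 2 / 100 := by linarith only [h1, hE]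
  have h3 : ‖Complex.exp Eq - 1‖ * ‖q - 1‖ ≤ 2 / 100 * (1 / 100) := by gcongr
  linarith only [h2, h3, hq]

theorem st_SD4 (h1 : ST_SDG) : ST_SD4 := by
  unfold ST_SD4
  have hev := (Pool.Agent.Helper38.UBL.ev_log 100).and
    ((Pool.Agent.Helper38.UBL.ev_sqrt (1 / 1000000) (by norm_num)).and
      ((Pool.Agent.Helper38.UBL.ev_exp (1 / 10000000) (by norm_num)).and
        (Filter.eventually_gt_atTop 0)))
  obtain ⟨n₀, hn₀⟩ := Filter.eventually_atTop.1 hev
  refine ⟨n₀, fun n hn m hm1 hm2 a ha0 ha1 ρ hρ1 hρ2 hsad q hq t ht => ?_⟩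
  obtain ⟨hL, hrt, hex, hnp⟩ := hn₀ n hn
  have hn0 : (0 : ℝ) < n := by exact_mod_cast hnp
  have hnt : (n : ℝ) * t ^ 2 ≤ 400 * Real.log n := by
    have h2 : t ^ 2 ≤ (20 * Real.sqrt (Real.log n / n)) ^ 2 := by
      rw [← sq_abs t]
      gcongr
    have h3 : (20 * Real.sqrt (Real.log n / n)) ^ 2 = 400 * (Real.log n / n) := by
      rw [mul_pow, Real.sq_sqrt (by
        have : 0 < Real.log (n : ℝ) := by linarith only [hL]
        positivity)]
      norm_num
    rw [h3] at h2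
    calc (n : ℝ) * t ^ 2 ≤ n * (400 * (Real.log n / n)) := by gcongr
      _ = 400 * Real.log n := by
        rw [mul_left_comm, mul_div_cancel₀ _ hn0.ne']
  generalize hφ : 20 * Real.sqrt (Real.log (n : ℝ) / n) = φ at *
  have hqz : ‖q (zt ρ t) - 1‖ ≤ 1 / 100 := by
    apply hq
    rw [sdg_zt_norm ρ t (by linarith only [hL, hρ1])]
    linarith only [hL, hρ2]
  generalize hLL : Real.log (n : ℝ) = L at *
  have hφ0 : 0 ≤ φ := by
    rw [← hφ]
    positivity
  have hφ1 : φ ≤ 1 / 10000 := by nlinarith only [hL, hrt, hφ0]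
  have hρ8 : 8 ≤ ρ := by linarith only [hL, hρ1]
  have hρ0 : 0 < ρ := by linarith only [hρ8]
  have ht2 : |t| ≤ 1 / 2 := by linarith only [ht, hφ1]
  obtain ⟨Ht1, Ht2, Ht3⟩ := (h1 ρ 0 t hρ8 (by norm_num) ht2)
  have Hs := (h1 ρ t 0 hρ8 ht2 (by norm_num)).1
  have hz0 : zt ρ 0 = (ρ : ℂ) := by unfold zt; simp
  rw [hz0] at Hs
  have hF0 : Complex.exp (ρ : ℂ) - 1 ≠ 0 := by
    rw [← Hs]
    exact mul_ne_zero (Complex.exp_ne_zero _) (Complex.exp_ne_zero _)
  have hFt : Complex.exp (zt ρ t) - 1 ≠ 0 := by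
    rw [← Ht1]
    exact mul_ne_zero (Complex.exp_ne_zero _) (Complex.exp_ne_zero _)
  have hexp : (Complex.exp (zt ρ t) - 1) / (Complex.exp (ρ : ℂ) - 1) =
      Complex.exp ((zt ρ t - ρ) + (GG ρ t - GG ρ 0)) := by
    rw [div_eq_iff hF0, ← Hs, ← Ht1, ← Complex.exp_add, ← Complex.exp_add, ← Complex.exp_add]
    congr 1
    ring
  obtain ⟨κ, hκ⟩ : ∃ κ : ℝ, κ = ρ / (Real.exp ρ - 1) := ⟨_, rfl⟩
  rw [← hκ] at Ht3
  have hexρ : 1 < Real.exp ρ := by
    have := Real.add_one_le_exp ρ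
    linarith only [this, hρ0]
  have hsad2 : (m : ℝ) * ρ + m * κ - a * ρ = n := by
    have e1 : ρ / (1 - Real.exp (-ρ)) = ρ + κ := by
      have h5 : (1 - Real.exp (-ρ)) ≠ 0 := by
        have : Real.exp (-ρ) < 1 := by
          rw [Real.exp_lt_one_iff]
          linarith only [hρ0]
        linarith only [this]
      have h6 : Real.exp ρ - 1 ≠ 0 := by linarith only [hexρ]
      have h7 : Real.exp ρ * Real.exp (-ρ) = 1 := by
        rw [← Real.exp_add, add_neg_cancel, Real.exp_zero]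
      rw [hκ, div_eq_iff h5, add_mul, div_mul_eq_mul_div, eq_comm, ← eq_sub_iff_add_eq',
        div_eq_iff h6]
      linear_combination (-ρ) * h7
    rw [e1] at hsad
    linear_combination hsad
  have hm0 : (0 : ℝ) ≤ m := Nat.cast_nonneg m
  have hκ0 : 0 ≤ κ := by
    rw [hκ]
    apply div_nonneg hρ0.le
    linarith only [hexρ]
  generalize hFF : Real.exp (-(ρ / 2)) = F at *
  have hFp : 0 < F := by rw [← hFF]; exact Real.exp_pos _
  have hκ1 : κ ≤ 2 * ρ * F := by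
    rw [hκ]
    rw [div_le_iff₀ (by linarith only [hexρ])]
    have h8 : F * Real.exp ρ ≥ 1 + ρ / 2 := by
      rw [← hFF, ← Real.exp_add]
      have := Real.add_one_le_exp (-(ρ / 2) + ρ)
      linarith only [this]
    have h9 : F ≤ 1 := by
      rw [← hFF, Real.exp_le_one_iff]
      linarith only [hρ0]
    have h10 : 1 / 2 ≤ F * Real.exp ρ - F := by linarith only [h8, h9, hρ8]
    calc ρ = 2 * ρ * (1 / 2) := by ring
      _ ≤ 2 * ρ * (F * Real.exp ρ - F) := by gcongr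
      _ = _ := by ring
  have hFL : L ^ 2 * F ≤ 1 / 10000000 := by
    have h2 : F ≤ Real.exp (-(L / 14)) := by
      rw [← hFF, Real.exp_le_exp]
      linarith only [hρ1]
    calc L ^ 2 * F ≤ L ^ 2 * Real.exp (-(L / 14)) := by gcongr
      _ ≤ _ := hex
  -- `m ρ`
  have hmρ : (m : ℝ) * ρ ≤ 5 * n := by
    calc (m : ℝ) * ρ ≤ m * (1.5 * L) := by gcongr
      _ = 1.5 * (m * L) := by ring
      _ ≤ 1.5 * (3 * n) := by gcongr
      _ ≤ _ := by linarith only [hn0]
  obtain ⟨R1, hR1⟩ : ∃ R : ℂ, R = Complex.exp ((t : ℂ) * Complex.I) - 1 - t * Complex.I + t ^ 2 / 2 :=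
    ⟨_, rfl⟩
  have hR1n := sd4_eit t (by linarith only [ht2])
  rw [← hR1] at hR1n
  obtain ⟨R2, hR2⟩ : ∃ R : ℂ, R = GG ρ t - GG ρ 0 - Complex.I * t * (κ : ℝ) := ⟨_, rfl⟩
  rw [← hR2] at Ht3
  have hz : zt ρ t - ρ = ρ * (t * Complex.I - t ^ 2 / 2 + R1) := by
    rw [hR1]
    unfold zt
    ring
  have hG : GG ρ t - GG ρ 0 = Complex.I * t * (κ : ℝ) + R2 := by
    rw [hR2]
    ring
  have hw : wk n m a ρ q t * Complex.exp ((n : ℂ) * t ^ 2 / 2) =
      Complex.exp (((m * κ * t ^ 2 / 2 : ℝ) : ℂ) + ((n - m * κ : ℝ) : ℂ) * R1 + m * R2) *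
        q (zt ρ t) := by
    unfold wk
    rw [hexp, ← Complex.exp_nat_mul]
    have e2 : Complex.exp ((m : ℂ) * (zt ρ t - ρ + (GG ρ t - GG ρ 0))) *
        Complex.exp (-(a : ℂ) * (zt ρ t - ρ)) * q (zt ρ t) *
        Complex.exp (-((n : ℂ) * t * Complex.I)) * Complex.exp ((n : ℂ) * t ^ 2 / 2) =
        (Complex.exp ((m : ℂ) * (zt ρ t - ρ + (GG ρ t - GG ρ 0))) *
        Complex.exp (-(a : ℂ) * (zt ρ t - ρ)) *
        Complex.exp (-((n : ℂ) * t * Complex.I)) * Complex.exp ((n : ℂ) * t ^ 2 / 2)) *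
          q (zt ρ t) := by ring
    rw [e2, ← Complex.exp_add, ← Complex.exp_add, ← Complex.exp_add]
    congr 2
    rw [hz, hG]
    have hsadC : (m : ℂ) * ρ + m * κ - a * ρ = n := by exact_mod_cast hsad2
    push_cast
    linear_combination (t * Complex.I - t ^ 2 / 2 + R1) * hsadC
  rw [hw]
  refine sd4_fin _ _ ?_ hqz
  have ht20 : 0 ≤ t ^ 2 := by positivity
  have hL0 : 0 < L := by linarith only [hL]
  -- the three terms
  have b1 : ‖((m * κ * t ^ 2 / 2 : ℝ) : ℂ)‖ ≤ 1 / 400 := by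
    rw [Complex.norm_real, Real.norm_eq_abs, abs_of_nonneg (by positivity)]
    have c1 : (m : ℝ) * κ ≤ 10 * n * F := by
      calc (m : ℝ) * κ ≤ m * (2 * ρ * F) := by gcongr
        _ = (m * ρ) * (2 * F) := by ring
        _ ≤ (5 * n) * (2 * F) := by gcongr
        _ = _ := by ring
    calc (m : ℝ) * κ * t ^ 2 / 2 ≤ 10 * n * F * t ^ 2 / 2 := by gcongr
      _ = 5 * F * (n * t ^ 2) := by ring
      _ ≤ 5 * F * (400 * L) := by gcongr
      _ = 2000 * (L * 1 * F) := by ring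
      _ ≤ 2000 * (L * L * F) := by
        have : (1 : ℝ) ≤ L := by linarith only [hL]
        gcongr
      _ = 2000 * (L ^ 2 * F) := by ring
      _ ≤ _ := by linarith only [hFL]
  have b2 : ‖((n - m * κ : ℝ) : ℂ) * R1‖ ≤ 1 / 400 := by
    rw [norm_mul, Complex.norm_real, Real.norm_eq_abs]
    have c1 : (m : ℝ) * κ ≤ n := by
      have hF1 : F * 10 ≤ 1 := by nlinarith only [hFL, hL, hFp]
      calc (m : ℝ) * κ ≤ m * (2 * ρ * F) := by gcongr
        _ = (m * ρ) * (2 * F) := by ring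
        _ ≤ (5 * n) * (2 * F) := by gcongr
        _ = n * (F * 10) := by ring
        _ ≤ n * 1 := by gcongr
        _ = n := mul_one _
    have c2 : |(n : ℝ) - m * κ| ≤ n := by
      rw [abs_of_nonneg (by linarith only [c1])]
      have : 0 ≤ (m : ℝ) * κ := by positivity
      linarith only [this]
    calc |(n : ℝ) - m * κ| * ‖R1‖ ≤ n * |t| ^ 3 := by gcongr
      _ = (n * t ^ 2) * |t| := by
        rw [← sq_abs t]
        ring
      _ ≤ (400 * L) * φ := by gcongr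
      _ = 400 * (L * φ) := by ring
      _ ≤ _ := by linarith only [hrt]
  have b3 : ‖(m : ℂ) * R2‖ ≤ 1 / 200 := by
    rw [norm_mul, Complex.norm_natCast]
    calc (m : ℝ) * ‖R2‖ ≤ m * (3 * ρ ^ 2 * F * t ^ 2) := by gcongr
      _ = (m * ρ) * (3 * ρ * F * t ^ 2) := by ring
      _ ≤ (5 * n) * (3 * (1.5 * L) * F * t ^ 2) := by gcongr
      _ = 22.5 * L * F * (n * t ^ 2) := by ring
      _ ≤ 22.5 * L * F * (400 * L) := by gcongr
      _ = 9000 * (L ^ 2 * F) := by ring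
      _ ≤ _ := by linarith only [hFL]
  refine (norm_add₃_le).trans ?_
  linarith only [b1, b2, b3]

end Pool.Agent.Helper89.UB
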