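import Pool.Agent.Helper89.UB.Stmts
import Pool.Agent.Helper38.UB.Lim
import Pool.Agent.Helper38.UB.SDG

set_option autoImplicit false

open Finset

namespace Pool.Agent.Helper89.UB

theorem sd5_eit (t : ℝ) : ‖Complex.exp ((t : ℂ) * Complex.I) - 1‖ ≤ |t| := by
  have h := (convex_univ (𝕜 := ℝ) (E := ℝ)).norm_image_sub_le_of_norm_hasDerivWithin_le
      (f := fun x : ℝ => Complex.exp ((x : ℂ) * Complex.I))
      (f' := fun x => Complex.exp ((x : ℂ) * Complex.I) * Complex.I) (C := 1)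
      (x := 0) (y := t)
      (fun x hx => by
        have h1 : HasDerivAt (fun t : ℝ => (t : ℂ) * Complex.I) Complex.I x := by
          have := (Complex.ofRealCLM.hasDerivAt (x := x)).mul_const Complex.I
          simpa using this
        exact h1.cexp.hasDerivWithinAt)
      (fun x hx => by
        rw [norm_mul, Complex.norm_exp_ofReal_mul_I, Complex.norm_I, mul_one])
      (Set.mem_univ _) (Set.mem_univ _)
  rw [Real.norm_eq_abs, one_mul, sub_zero] at h
  simpa using h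

theorem sd5_lin (ρ φ s t : ℝ) (hρ : 0 ≤ ρ) (hs : |s| ≤ φ) (ht : |t| ≤ φ) :
    ‖(zt ρ t - zt ρ s) - Complex.I * (ρ * (t - s) : ℝ)‖ ≤ ρ * φ * |t - s| := by
  have h := (convex_Icc (-φ) φ).norm_image_sub_le_of_norm_hasDerivWithin_le
      (f := fun x : ℝ => zt ρ x - (x : ℂ) * (Complex.I * ρ))
      (f' := fun x => Complex.I * zt ρ x - Complex.I * ρ) (C := ρ * φ)
      (x := s) (y := t)
      (fun x hx => by
        have h1 := sdg_zt_deriv ρ x
        have h2 : HasDerivAt (fun x : ℝ => (x : ℂ) * (Complex.I * ρ)) (Complex.I * ρ) x := by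
          have := (Complex.ofRealCLM.hasDerivAt (x := x)).mul_const (Complex.I * ρ)
          simpa using this
        exact (h1.sub h2).hasDerivWithinAt)
      (fun x hx => by
        have e : Complex.I * zt ρ x - Complex.I * ρ =
            Complex.I * (ρ * (Complex.exp ((x : ℂ) * Complex.I) - 1)) := by
          unfold zt
          ring
        rw [e, norm_mul, Complex.norm_I, one_mul, norm_mul, Complex.norm_real, Real.norm_eq_abs,
          abs_of_nonneg hρ]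
        have := (sd5_eit x).trans (abs_le.2 hx)
        gcongr)
      (abs_le.1 hs) (abs_le.1 ht)
  rw [Real.norm_eq_abs] at h
  refine le_trans (le_of_eq ?_) h
  congr 1
  push_cast
  ring

theorem sd5_cosh (u : ℂ) (hu : ‖u‖ ≤ 1) :
    ‖(Complex.exp u + Complex.exp (-u)) / 2 - 1 - u ^ 2 / 2‖ ≤ ‖u‖ ^ 4 / 10 := by
  have h1 := Complex.exp_bound (x := u) hu (n := 4) (by norm_num)
  have h2 := Complex.exp_bound (x := -u) (by rwa [norm_neg]) (n := 4) (by norm_num)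
  have e : (Complex.exp u + Complex.exp (-u)) / 2 - 1 - u ^ 2 / 2 =
      ((Complex.exp u - ∑ m ∈ range 4, u ^ m / (m.factorial : ℂ)) +
        (Complex.exp (-u) - ∑ m ∈ range 4, (-u) ^ m / (m.factorial : ℂ))) / 2 := by
    simp only [Finset.sum_range_succ, Finset.sum_range_zero, Nat.factorial]
    push_cast
    ring
  rw [e, norm_div]
  have h3 := norm_add_le (Complex.exp u - ∑ m ∈ range 4, u ^ m / (m.factorial : ℂ))
    (Complex.exp (-u) - ∑ m ∈ range 4, (-u) ^ m / (m.factorial : ℂ))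
  rw [norm_neg] at h2
  norm_num [Nat.factorial] at h1 h2
  have h4 : 0 ≤ ‖u‖ ^ 4 := by positivity
  have h5 : ‖(2 : ℂ)‖ = 2 := by norm_num
  rw [h5]
  linarith only [h1, h2, h3, h4]

theorem sd5_alg (w : ℝ) (u e : ℂ) (ε : ℝ) (hε : 0 ≤ ε) (hε1 : ε ≤ 1 / 100) (hw : |w| ≤ 1 / 4)
    (hu : u = Complex.I * (w : ℝ) + e) (he : ‖e‖ ≤ ε * |w|) :
    ‖(Complex.exp u + Complex.exp (-u)) / 2 - 1 + (w ^ 2 / 2 : ℝ)‖ ≤ w ^ 2 / 20 := by
  have hw0 := abs_nonneg w
  have hn : ‖u‖ ≤ 101 / 100 * |w| := by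
    rw [hu]
    refine (norm_add_le _ _).trans ?_
    rw [norm_mul, Complex.norm_I, one_mul, Complex.norm_real, Real.norm_eq_abs]
    nlinarith only [he, hε1, hw0]
  have h1 := sd5_cosh u (by linarith only [hn, hw])
  have h2 : u ^ 2 / 2 + (w ^ 2 / 2 : ℝ) = e * (Complex.I * (w : ℝ) + e / 2) := by
    rw [hu]
    push_cast
    linear_combination ((w : ℂ) ^ 2 / 2) * Complex.I_sq
  have h3 : ‖u ^ 2 / 2 + (w ^ 2 / 2 : ℝ)‖ ≤ ε * |w| * (|w| + ε * |w| / 2) := by
    rw [h2, norm_mul]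
    have h4 : ‖Complex.I * (w : ℝ) + e / 2‖ ≤ |w| + ε * |w| / 2 := by
      refine (norm_add_le _ _).trans ?_
      rw [norm_mul, Complex.norm_I, one_mul, Complex.norm_real, Real.norm_eq_abs, norm_div]
      have h5 : ‖(2 : ℂ)‖ = 2 := by norm_num
      rw [h5]
      linarith only [he]
    gcongr
  have h6 : (Complex.exp u + Complex.exp (-u)) / 2 - 1 + (w ^ 2 / 2 : ℝ) =
      ((Complex.exp u + Complex.exp (-u)) / 2 - 1 - u ^ 2 / 2) + (u ^ 2 / 2 + (w ^ 2 / 2 : ℝ)) := by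
    ring
  rw [h6]
  refine (norm_add_le _ _).trans ?_
  have h7 : ‖u‖ ^ 4 ≤ (101 / 100 * |w|) ^ 4 := by gcongr
  have h8 : (101 / 100 * |w|) ^ 4 ≤ (101 / 100) ^ 4 * (1 / 16) * w ^ 2 := by
    have h9 : |w| ^ 2 ≤ 1 / 16 := by nlinarith only [hw, hw0]
    have h10 : (101 / 100 * |w|) ^ 4 = (101 / 100) ^ 4 * |w| ^ 2 * |w| ^ 2 := by ring
    rw [h10, ← sq_abs w]
    gcongr
  have h11 : ε * |w| * (|w| + ε * |w| / 2) = (ε + ε ^ 2 / 2) * w ^ 2 := by
    rw [← sq_abs w]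
    ring
  have h12 : (ε + ε ^ 2 / 2) * w ^ 2 ≤ (1 / 100 + (1 / 100) ^ 2 / 2) * w ^ 2 := by
    gcongr
  have h13 : 0 ≤ w ^ 2 := by positivity
  rw [h11] at h3
  linarith only [h1, h3, h7, h8, h12, h13]

theorem st_SD5 (h1 : ST_SDG) : ST_SD5 := by
  unfold ST_SD5
  have hev := (Pool.Agent.Helper38.UBL.ev_log 100).and
    ((Pool.Agent.Helper38.UBL.ev_sqrt (1 / 100) (by norm_num)).and
      (Pool.Agent.Helper38.UBL.ev_exp (1 / 400) (by norm_num)))
  obtain ⟨n₀, hn₀⟩ := Filter.eventually_atTop.1 hev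
  refine ⟨n₀, fun n hn ρ hρ1 hρ2 s t hs ht => ?_⟩
  obtain ⟨hL, hrt, hex⟩ := hn₀ n hn
  generalize hφ : 20 * Real.sqrt (Real.log (n : ℝ) / n) = φ at *
  generalize hLL : Real.log (n : ℝ) = L at *
  have hφ0 : 0 ≤ φ := by
    rw [← hφ]
    positivity
  have hφ1 : φ ≤ 1 / 10000 := by nlinarith only [hL, hrt, hφ0]
  have hρ8 : 8 ≤ ρ := by linarith only [hL, hρ1]
  have hs2 : |s| ≤ 1 / 2 := by linarith only [hs, hφ1]
  have ht2 : |t| ≤ 1 / 2 := by linarith only [ht, hφ1]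
  have Ht := (h1 ρ s t hρ8 hs2 ht2)
  have Hs := (h1 ρ t s hρ8 ht2 hs2).1
  have hF : Real.exp (-(ρ / 2)) ≤ 1 / 1000 := by
    have h2 : Real.exp (-(ρ / 2)) ≤ Real.exp (-(L / 14)) := by
      rw [Real.exp_le_exp]
      linarith only [hρ1]
    have h3 : 10000 * Real.exp (-(L / 14)) ≤ L ^ 2 * Real.exp (-(L / 14)) := by
      have : (10000 : ℝ) ≤ L ^ 2 := by nlinarith only [hL]
      gcongr
    linarith only [h2, h3, hex]
  have hFs : Complex.exp (zt ρ s) - 1 ≠ 0 := by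
    rw [← Hs]
    exact mul_ne_zero (Complex.exp_ne_zero _) (Complex.exp_ne_zero _)
  have hFt : Complex.exp (zt ρ t) - 1 ≠ 0 := by
    rw [← Ht.1]
    exact mul_ne_zero (Complex.exp_ne_zero _) (Complex.exp_ne_zero _)
  refine ⟨hFt, ?_⟩
  have hlin := sd5_lin ρ φ s t (by linarith only [hρ8]) hs ht
  obtain ⟨u, hu⟩ : ∃ u : ℂ, u = (zt ρ t - zt ρ s) + (GG ρ t - GG ρ s) := ⟨_, rfl⟩
  have hexp : (Complex.exp (zt ρ t) - 1) / (Complex.exp (zt ρ s) - 1) = Complex.exp u := by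
    rw [div_eq_iff hFs, ← Hs, ← Ht.1, hu, ← Complex.exp_add, ← Complex.exp_add, ← Complex.exp_add]
    congr 1
    ring
  have hexp2 : (Complex.exp (zt ρ s) - 1) / (Complex.exp (zt ρ t) - 1) = Complex.exp (-u) := by
    rw [Complex.exp_neg, ← hexp, inv_div]
  rw [hexp, hexp2]
  have hd : |t - s| ≤ 2 * φ := by
    have := abs_sub t s
    linarith only [this, hs, ht]
  have hd0 := abs_nonneg (t - s)
  have habs : |ρ * (t - s)| = ρ * |t - s| := by
    rw [abs_mul, abs_of_nonneg (by linarith only [hρ8])]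
  have hw : |ρ * (t - s)| ≤ 1 / 4 := by
    rw [habs]
    have hρφ : ρ * (2 * φ) ≤ 3 * (L * φ) := by nlinarith only [hρ2, hφ0]
    have : ρ * |t - s| ≤ ρ * (2 * φ) := by
      apply mul_le_mul_of_nonneg_left hd
      linarith only [hρ8]
    linarith only [this, hρφ, hrt]
  have key := sd5_alg (ρ * (t - s)) u (((zt ρ t - zt ρ s) - Complex.I * (ρ * (t - s) : ℝ)) +
      (GG ρ t - GG ρ s)) (φ + 2 * Real.exp (-(ρ / 2))) (by positivity)
      (by linarith only [hφ1, hF]) hw (by rw [hu]; ring) (by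
        refine (norm_add_le _ _).trans ?_
        rw [habs]
        have h5 := Ht.2.1
        calc _ ≤ ρ * φ * |t - s| + 2 * ρ * Real.exp (-(ρ / 2)) * |t - s| := add_le_add hlin h5
          _ = _ := by ring)
  have e1 : (ρ * (t - s)) ^ 2 = ρ ^ 2 * (t - s) ^ 2 := by ring
  rw [e1] at key
  exact key

end Pool.Agent.Helper89.UB
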